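import Pool.Agent.W417.GP.Modes

set_option autoImplicit false

open MeasureTheory Finset Filter
open scoped Topology

namespace Pool.Agent.W417.GP

open Pool.Agent.W259.GP

/-- the angles of the cosine transform -/
noncomputable def th (n : ℕ) (j : ℕ) : ℝ := Real.pi * (2 * (j : ℝ) + 1) / (2 * ((n : ℝ) + 1))

/-- the angles of the sine transform -/
noncomputable def th' (n : ℕ) (j : ℕ) : ℝ := Real.pi * ((j : ℝ) + 1) / ((n : ℝ) + 1)

theorem sin_ne {n : ℕ} {k : ℤ} (hk : k ≠ 0) (h : |k| < 2 * (n + 1)) :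
    Real.sin (k * Real.pi / (2 * ((n : ℝ) + 1))) ≠ 0 := by
  rw [Real.sin_ne_zero_iff]
  intro m hm
  have h1 : (n : ℝ) + 1 ≠ 0 := by positivity
  have h2 : (m : ℝ) * (2 * ((n : ℝ) + 1)) = k := by
    have h3 : (m : ℝ) * Real.pi * (2 * ((n : ℝ) + 1)) = k * Real.pi := by
      rw [hm]
      field_simp
    have h4 : ((m : ℝ) * (2 * ((n : ℝ) + 1))) * Real.pi = k * Real.pi := by
      rw [← h3]; ring
    exact mul_right_cancel₀ Real.pi_ne_zero h4
  have h3 : m * (2 * ((n : ℤ) + 1)) = k := by exact_mod_cast h2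
  by_cases hm0 : m = 0
  · rw [hm0, zero_mul] at h3
    exact hk h3.symm
  · have h4 : 1 ≤ |m| := Int.one_le_abs hm0
    rw [← h3, abs_mul, abs_of_nonneg (by positivity : (0 : ℤ) ≤ 2 * ((n : ℤ) + 1))] at h
    nlinarith

theorem tele1 (φ : ℝ) (M : ℕ) :
    2 * Real.sin φ * ∑ j ∈ range M, Real.cos ((2 * (j : ℝ) + 1) * φ) = Real.sin (2 * M * φ) := by
  induction M with
  | zero => simp
  | succ M ih =>
    rw [Finset.sum_range_succ, mul_add, ih]
    have h1 : (2 : ℝ) * ((M + 1 : ℕ) : ℝ) * φ = (2 * (M : ℝ) + 1) * φ + φ := by push_cast; ring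
    have h2 : (2 : ℝ) * (M : ℝ) * φ = (2 * (M : ℝ) + 1) * φ - φ := by ring
    rw [h1, h2, Real.sin_add, Real.sin_sub]
    ring

theorem tele2 (φ : ℝ) (M : ℕ) :
    2 * Real.sin φ * ∑ j ∈ range M, Real.cos (((j : ℝ) + 1) * (2 * φ)) =
      Real.sin ((2 * M + 1) * φ) - Real.sin φ := by
  induction M with
  | zero => simp
  | succ M ih =>
    rw [Finset.sum_range_succ, mul_add, ih]
    have h1 : ((2 : ℝ) * ((M + 1 : ℕ) : ℝ) + 1) * φ = ((M : ℝ) + 1) * (2 * φ) + φ := by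
      push_cast; ring
    have h2 : (2 * (M : ℝ) + 1) * φ = ((M : ℝ) + 1) * (2 * φ) - φ := by ring
    rw [h1, h2, Real.sin_add, Real.sin_sub]
    ring

theorem sumS (n : ℕ) (k : ℤ) (h : |k| < 2 * (n + 1)) :
    ∑ j : Fin (n + 1), Real.cos (k * th n j) = if k = 0 then (n : ℝ) + 1 else 0 := by
  have h1 : (n : ℝ) + 1 ≠ 0 := by positivity
  split_ifs with hk
  · subst hk
    simp
  · have h2 := sin_ne hk h
    have h3 := tele1 (k * Real.pi / (2 * ((n : ℝ) + 1))) (n + 1)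
    have h4 : Real.sin (2 * ((n + 1 : ℕ) : ℝ) * (k * Real.pi / (2 * ((n : ℝ) + 1)))) = 0 := by
      have : 2 * ((n + 1 : ℕ) : ℝ) * (k * Real.pi / (2 * ((n : ℝ) + 1))) = k * Real.pi := by
        push_cast
        field_simp
      rw [this]
      exact Real.sin_int_mul_pi k
    rw [h4] at h3
    have h5 := (mul_eq_zero.1 h3).resolve_left (mul_ne_zero two_ne_zero h2)
    rw [Finset.sum_range] at h5
    rw [← h5]
    refine Finset.sum_congr rfl fun j _ => ?_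
    congr 1
    unfold th
    ring

theorem sumT (n : ℕ) (k : ℤ) (h : |k| < 2 * (n + 1)) :
    ∑ j : Fin n, Real.cos (k * th' n j) =
      (if k = 0 then (n : ℝ) + 1 else 0) - (1 + Real.cos (k * Real.pi)) / 2 := by
  have h1 : (n : ℝ) + 1 ≠ 0 := by positivity
  split_ifs with hk
  · subst hk
    simp
  · have h2 := sin_ne hk h
    set φ := k * Real.pi / (2 * ((n : ℝ) + 1)) with hφ
    have h3 := tele2 φ n
    have h4 : (2 * (n : ℝ) + 1) * φ = k * Real.pi - φ := by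
      rw [hφ]
      field_simp
      ring
    rw [h4, Real.sin_sub, Real.sin_int_mul_pi, zero_mul, zero_sub] at h3
    have h5 : ∑ j ∈ range n, Real.cos (((j : ℝ) + 1) * (2 * φ)) =
        0 - (1 + Real.cos (k * Real.pi)) / 2 := by
      have h6 : 2 * Real.sin φ * (∑ j ∈ range n, Real.cos (((j : ℝ) + 1) * (2 * φ)) -
          (0 - (1 + Real.cos (k * Real.pi)) / 2)) = 0 := by
        rw [mul_sub, h3]
        ring
      have h7 := (mul_eq_zero.1 h6).resolve_left (mul_ne_zero two_ne_zero h2)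
      linarith
    rw [Finset.sum_range] at h5
    rw [← h5]
    refine Finset.sum_congr rfl fun j _ => ?_
    congr 1
    unfold th'
    rw [hφ]
    field_simp

theorem sumCC (n : ℕ) (a b : ℤ) (h : |a - b| < 2 * (n + 1)) (h' : |a + b| < 2 * (n + 1)) :
    ∑ j : Fin (n + 1), Real.cos (a * th n j) * Real.cos (b * th n j) =
      ((if a - b = 0 then (n : ℝ) + 1 else 0) + (if a + b = 0 then (n : ℝ) + 1 else 0)) / 2 := by
  rw [← sumS n _ h, ← sumS n _ h', ← Finset.sum_add_distrib, Finset.sum_div]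
  refine Finset.sum_congr rfl fun j _ => ?_
  push_cast
  rw [sub_mul, add_mul, Real.cos_sub, Real.cos_add]
  ring

theorem sumSS (n : ℕ) (a b : ℤ) (h : |a - b| < 2 * (n + 1)) (h' : |a + b| < 2 * (n + 1)) :
    ∑ j : Fin n, Real.sin (a * th' n j) * Real.sin (b * th' n j) =
      ((if a - b = 0 then (n : ℝ) + 1 else 0) - (if a + b = 0 then (n : ℝ) + 1 else 0)) / 2 := by
  have h1 : ∑ j : Fin n, Real.sin (a * th' n j) * Real.sin (b * th' n j) =
      (∑ j : Fin n, Real.cos (((a - b : ℤ) : ℝ) * th' n j) -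
        ∑ j : Fin n, Real.cos (((a + b : ℤ) : ℝ) * th' n j)) / 2 := by
    rw [← Finset.sum_sub_distrib, Finset.sum_div]
    refine Finset.sum_congr rfl fun j _ => ?_
    push_cast
    rw [sub_mul, add_mul, Real.cos_sub, Real.cos_add]
    ring
  have h2 : Real.cos (((a - b : ℤ) : ℝ) * Real.pi) = Real.cos (((a + b : ℤ) : ℝ) * Real.pi) := by
    have : ((a + b : ℤ) : ℝ) * Real.pi = ((a - b : ℤ) : ℝ) * Real.pi + b * (2 * Real.pi) := by
      push_cast; ring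
    rw [this, Real.cos_add_int_mul_two_pi]
  rw [h1, sumT n _ h, sumT n _ h', h2]
  ring

/-- the cosine transform -/
noncomputable def OC (n : ℕ) (j k : Fin (n + 1)) : ℝ :=
  (if (k : ℕ) = 0 then √(1 / ((n : ℝ) + 1)) else √(2 / ((n : ℝ) + 1))) *
    Real.cos (((k : ℕ) : ℤ) * th n j)

/-- the sine transform -/
noncomputable def OS (n : ℕ) (j k : Fin n) : ℝ :=
  √(2 / ((n : ℝ) + 1)) * Real.sin ((((k : ℕ) + 1 : ℕ) : ℤ) * th' n j)

theorem orth_of_col {m : ℕ} {O : Fin m → Fin m → ℝ}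
    (h : ∀ i l, ∑ j, O j i * O j l = if i = l then 1 else 0) : IsOrth O := by
  intro i l
  let A : Matrix (Fin m) (Fin m) ℝ := Matrix.of O
  have h1 : A.transpose * A = 1 := by
    ext j l
    rw [Matrix.mul_apply, Matrix.one_apply]
    exact h j l
  have h2 : A * A.transpose = 1 := mul_eq_one_comm.1 h1
  have h3 := congrFun (congrFun h2 i) l
  rw [Matrix.mul_apply, Matrix.one_apply] at h3
  exact h3

theorem orth_OC (n : ℕ) : IsOrth (OC n) := by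
  apply orth_of_col
  intro i l
  have hn : (n : ℝ) + 1 ≠ 0 := by positivity
  have hn' : (0 : ℝ) ≤ 1 / ((n : ℝ) + 1) := by positivity
  have hn2 : (0 : ℝ) ≤ 2 / ((n : ℝ) + 1) := by positivity
  have hi := i.2
  have hl := l.2
  have h1 := sumCC n ((i : ℕ) : ℤ) ((l : ℕ) : ℤ) (by rw [abs_lt]; omega) (by rw [abs_lt]; omega)
  have h2 : ∑ j, OC n j i * OC n j l =
      ((if (i : ℕ) = 0 then √(1 / ((n : ℝ) + 1)) else √(2 / ((n : ℝ) + 1))) *
      (if (l : ℕ) = 0 then √(1 / ((n : ℝ) + 1)) else √(2 / ((n : ℝ) + 1)))) *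
      ∑ j : Fin (n + 1), Real.cos (((i : ℕ) : ℤ) * th n j) * Real.cos (((l : ℕ) : ℤ) * th n j) := by
    rw [Finset.mul_sum]
    refine Finset.sum_congr rfl fun j _ => ?_
    unfold OC
    ring
  rw [h2, h1]
  by_cases hil : i = l
  · subst hil
    rw [if_pos rfl, if_pos (sub_self _)]
    by_cases h0 : (i : ℕ) = 0
    · rw [if_pos h0, if_pos (by omega), Real.mul_self_sqrt hn']
      field_simp
      norm_num
    · rw [if_neg h0, if_neg (by omega), Real.mul_self_sqrt hn2]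
      field_simp
      ring
  · have hne : (i : ℕ) ≠ (l : ℕ) := fun h => hil (Fin.ext h)
    rw [if_neg hil, if_neg (c := (((i : ℕ) : ℤ) - ((l : ℕ) : ℤ) = 0)) (by omega),
      if_neg (c := (((i : ℕ) : ℤ) + ((l : ℕ) : ℤ) = 0)) (by omega)]
    simp

theorem orth_OS (n : ℕ) : IsOrth (OS n) := by
  apply orth_of_col
  intro i l
  have hn : (n : ℝ) + 1 ≠ 0 := by positivity
  have hn2 : (0 : ℝ) ≤ 2 / ((n : ℝ) + 1) := by positivity
  have hi := i.2
  have hl := l.2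
  have h1 := sumSS n (((i : ℕ) + 1 : ℕ) : ℤ) (((l : ℕ) + 1 : ℕ) : ℤ) (by rw [abs_lt]; omega)
    (by rw [abs_lt]; omega)
  have h2 : ∑ j, OS n j i * OS n j l =
      (√(2 / ((n : ℝ) + 1)) * √(2 / ((n : ℝ) + 1))) *
      ∑ j : Fin n, Real.sin ((((i : ℕ) + 1 : ℕ) : ℤ) * th' n j) *
        Real.sin ((((l : ℕ) + 1 : ℕ) : ℤ) * th' n j) := by
    rw [Finset.mul_sum]
    refine Finset.sum_congr rfl fun j _ => ?_
    unfold OS
    ring
  rw [h2, h1, Real.mul_self_sqrt hn2]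
  by_cases hil : i = l
  · subst hil
    rw [if_pos rfl, if_pos (sub_self _), if_neg (by omega)]
    field_simp
    ring
  · have hne : (i : ℕ) ≠ (l : ℕ) := fun h => hil (Fin.ext h)
    rw [if_neg hil, if_neg (c := (((((i : ℕ) + 1 : ℕ) : ℤ) - (((l : ℕ) + 1 : ℕ) : ℤ) = 0)))
      (by omega), if_neg (c := (((((i : ℕ) + 1 : ℕ) : ℤ) + (((l : ℕ) + 1 : ℕ) : ℤ) = 0)))
      (by omega)]
    simp

theorem quad_OC (n : ℕ) (c : ℝ) (i l : Fin n) : QM (OC n) (cA c n) i.succ l.succ =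
    c * (2 * (if i = l then 1 else 0) - ((if (i : ℕ) = l + 1 then 1 else 0) +
      (if (l : ℕ) = i + 1 then 1 else 0))) := by
  have hn : (n : ℝ) + 1 ≠ 0 := by positivity
  have hn2 : (0 : ℝ) ≤ 2 / ((n : ℝ) + 1) := by positivity
  have hi := i.2
  have hl := l.2
  have h0 := sumCC n (((i : ℕ) + 1 : ℕ) : ℤ) (((l : ℕ) + 1 : ℕ) : ℤ) (by rw [abs_lt]; omega)
    (by rw [abs_lt]; omega)
  have h1 := sumCC n (((i : ℕ) + 1 : ℕ) : ℤ) (((l : ℕ) + 2 : ℕ) : ℤ) (by rw [abs_lt]; omega)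
    (by rw [abs_lt]; omega)
  have h2 := sumCC n (((i : ℕ) + 1 : ℕ) : ℤ) ((l : ℕ) : ℤ) (by rw [abs_lt]; omega)
    (by rw [abs_lt]; omega)
  have h3 : QM (OC n) (cA c n) i.succ l.succ = (√(2 / ((n : ℝ) + 1)) * √(2 / ((n : ℝ) + 1))) * c *
      (2 * ∑ j : Fin (n + 1), Real.cos ((((i : ℕ) + 1 : ℕ) : ℤ) * th n j) *
        Real.cos ((((l : ℕ) + 1 : ℕ) : ℤ) * th n j) -
      (∑ j : Fin (n + 1), Real.cos ((((i : ℕ) + 1 : ℕ) : ℤ) * th n j) *
        Real.cos ((((l : ℕ) + 2 : ℕ) : ℤ) * th n j) +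
       ∑ j : Fin (n + 1), Real.cos ((((i : ℕ) + 1 : ℕ) : ℤ) * th n j) *
        Real.cos (((l : ℕ) : ℤ) * th n j))) := by
    rw [← Finset.sum_add_distrib, Finset.mul_sum, ← Finset.sum_sub_distrib, Finset.mul_sum, QM]
    refine Finset.sum_congr rfl fun j _ => ?_
    unfold OC cA
    have e1 : ((i.succ : Fin (n + 1)) : ℕ) = i + 1 := rfl
    have e2 : ((l.succ : Fin (n + 1)) : ℕ) = l + 1 := rfl
    rw [e1, e2, if_neg (Nat.succ_ne_zero _), if_neg (Nat.succ_ne_zero _)]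
    have e3 : (((((l : ℕ) + 2 : ℕ) : ℤ) : ℝ)) * th n j =
        ((((l : ℕ) + 1 : ℕ) : ℤ) : ℝ) * th n j + th n j := by push_cast; ring
    have e4 : ((((l : ℕ) : ℤ) : ℝ)) * th n j =
        ((((l : ℕ) + 1 : ℕ) : ℤ) : ℝ) * th n j - th n j := by push_cast; ring
    rw [e3, e4, Real.cos_add, Real.cos_sub]
    change _ * (c * (2 - 2 * Real.cos (th n j))) * _ = _
    ring
  rw [h3, h0, h1, h2, Real.mul_self_sqrt hn2]
  have c0 : (((((i : ℕ) + 1 : ℕ) : ℤ) - (((l : ℕ) + 1 : ℕ) : ℤ) = 0)) ↔ i = l :=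
    ⟨fun h => Fin.ext (by omega), fun h => by rw [h]; ring⟩
  have c1 : (((((i : ℕ) + 1 : ℕ) : ℤ) - (((l : ℕ) + 2 : ℕ) : ℤ) = 0)) ↔ (i : ℕ) = l + 1 := by
    omega
  have c2 : (((((i : ℕ) + 1 : ℕ) : ℤ) - ((l : ℕ) : ℤ) = 0)) ↔ (l : ℕ) = i + 1 := by omega
  rw [if_neg (c := (((((i : ℕ) + 1 : ℕ) : ℤ) + (((l : ℕ) + 1 : ℕ) : ℤ) = 0))) (by omega),
    if_neg (c := (((((i : ℕ) + 1 : ℕ) : ℤ) + (((l : ℕ) + 2 : ℕ) : ℤ) = 0))) (by omega),
    if_neg (c := (((((i : ℕ) + 1 : ℕ) : ℤ) + ((l : ℕ) : ℤ) = 0))) (by omega)]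
  simp only [c0, c1, c2, add_zero]
  have key : ∀ P : Prop, ∀ _ : Decidable P, (if P then (n : ℝ) + 1 else 0) =
      ((n : ℝ) + 1) * (if P then 1 else 0) := by
    intro P _
    split_ifs <;> simp
  rw [key, key, key]
  field_simp

theorem quad_OS (n : ℕ) (c : ℝ) (i l : Fin n) : QM (OS n) (cB c n) i l =
    c * (2 * (if i = l then 1 else 0) - ((if (i : ℕ) = l + 1 then 1 else 0) +
      (if (l : ℕ) = i + 1 then 1 else 0))) := by
  have hn : (n : ℝ) + 1 ≠ 0 := by positivity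
  have hn2 : (0 : ℝ) ≤ 2 / ((n : ℝ) + 1) := by positivity
  have hi := i.2
  have hl := l.2
  have h0 := sumSS n (((i : ℕ) + 1 : ℕ) : ℤ) (((l : ℕ) + 1 : ℕ) : ℤ) (by rw [abs_lt]; omega)
    (by rw [abs_lt]; omega)
  have h1 := sumSS n (((i : ℕ) + 1 : ℕ) : ℤ) (((l : ℕ) + 2 : ℕ) : ℤ) (by rw [abs_lt]; omega)
    (by rw [abs_lt]; omega)
  have h2 := sumSS n (((i : ℕ) + 1 : ℕ) : ℤ) ((l : ℕ) : ℤ) (by rw [abs_lt]; omega)
    (by rw [abs_lt]; omega)
  have h3 : QM (OS n) (cB c n) i l = (√(2 / ((n : ℝ) + 1)) * √(2 / ((n : ℝ) + 1))) * c *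
      (2 * ∑ j : Fin n, Real.sin ((((i : ℕ) + 1 : ℕ) : ℤ) * th' n j) *
        Real.sin ((((l : ℕ) + 1 : ℕ) : ℤ) * th' n j) -
      (∑ j : Fin n, Real.sin ((((i : ℕ) + 1 : ℕ) : ℤ) * th' n j) *
        Real.sin ((((l : ℕ) + 2 : ℕ) : ℤ) * th' n j) +
       ∑ j : Fin n, Real.sin ((((i : ℕ) + 1 : ℕ) : ℤ) * th' n j) *
        Real.sin (((l : ℕ) : ℤ) * th' n j))) := by
    rw [← Finset.sum_add_distrib, Finset.mul_sum, ← Finset.sum_sub_distrib, Finset.mul_sum, QM]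
    refine Finset.sum_congr rfl fun j _ => ?_
    unfold OS cB
    have e3 : (((((l : ℕ) + 2 : ℕ) : ℤ) : ℝ)) * th' n j =
        ((((l : ℕ) + 1 : ℕ) : ℤ) : ℝ) * th' n j + th' n j := by push_cast; ring
    have e4 : ((((l : ℕ) : ℤ) : ℝ)) * th' n j =
        ((((l : ℕ) + 1 : ℕ) : ℤ) : ℝ) * th' n j - th' n j := by push_cast; ring
    rw [e3, e4, Real.sin_add, Real.sin_sub]
    change _ * (c * (2 - 2 * Real.cos (th' n j))) * _ = _
    ring
  rw [h3, h0, h1, h2, Real.mul_self_sqrt hn2]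
  have c0 : (((((i : ℕ) + 1 : ℕ) : ℤ) - (((l : ℕ) + 1 : ℕ) : ℤ) = 0)) ↔ i = l :=
    ⟨fun h => Fin.ext (by omega), fun h => by rw [h]; ring⟩
  have c1 : (((((i : ℕ) + 1 : ℕ) : ℤ) - (((l : ℕ) + 2 : ℕ) : ℤ) = 0)) ↔ (i : ℕ) = l + 1 := by
    omega
  have c2 : (((((i : ℕ) + 1 : ℕ) : ℤ) - ((l : ℕ) : ℤ) = 0)) ↔ (l : ℕ) = i + 1 := by omega
  rw [if_neg (c := (((((i : ℕ) + 1 : ℕ) : ℤ) + (((l : ℕ) + 1 : ℕ) : ℤ) = 0))) (by omega),
    if_neg (c := (((((i : ℕ) + 1 : ℕ) : ℤ) + (((l : ℕ) + 2 : ℕ) : ℤ) = 0))) (by omega),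
    if_neg (c := (((((i : ℕ) + 1 : ℕ) : ℤ) + ((l : ℕ) : ℤ) = 0))) (by omega)]
  simp only [c0, c1, c2, sub_zero]
  have key : ∀ P : Prop, ∀ _ : Decidable P, (if P then (n : ℝ) + 1 else 0) =
      ((n : ℝ) + 1) * (if P then 1 else 0) := by
    intro P _
    split_ifs <;> simp
  rw [key, key, key]
  field_simp

theorem chain : S_chain := by
  intro n
  refine ⟨OC n, OS n, orth_OC n, orth_OS n, ?_, ?_⟩
  · intro j
    have hn' : (0 : ℝ) ≤ 1 / ((n : ℝ) + 1) := by positivity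
    unfold OC
    have e : (((0 : Fin (n + 1)) : ℕ)) = 0 := rfl
    rw [e, if_pos rfl, mul_pow, Real.sq_sqrt hn']
    simp
  · intro c i l
    rw [quad_OC, quad_OS]

end Pool.Agent.W417.GP
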