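import Pool.Agent.W259.GP.Defs

set_option autoImplicit false

open MeasureTheory Finset Filter
open scoped Topology

namespace Pool.Agent.W417.GP

open Pool.Agent.W259.GP

theorem hasSum_pi {m : ℕ} : ∀ (f : Fin m → ℕ → ℝ) (s : Fin m → ℝ), (∀ j, HasSum (f j) (s j)) →
    HasSum (fun κ : Fin m → ℕ => ∏ j, f j (κ j)) (∏ j, s j) := by
  induction m with
  | zero =>
    intro f s h
    simp only [Finset.univ_eq_empty, Finset.prod_empty]
    exact hasSum_unique (fun _ : Fin 0 → ℕ => (1 : ℝ))
  | succ m ih =>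
    intro f s h
    have h1 := ih (fun j => f j.succ) (fun j => s j.succ) (fun j => h j.succ)
    have h0 := h 0
    let g : (Fin m → ℕ) → ℝ := fun κ => ∏ j, f (Fin.succ j) (κ j)
    have hg : Summable g := h1.summable
    have hs : Summable fun p : ℕ × (Fin m → ℕ) => f 0 p.1 * g p.2 :=
      summable_mul_of_summable_norm (f := f 0) (g := g) h0.summable.norm hg.norm
    have h2 := h0.mul h1 hs
    have h3 : (fun p : ℕ × (Fin m → ℕ) => f 0 p.1 * ∏ j, f (Fin.succ j) (p.2 j)) =
        (fun κ : Fin (m + 1) → ℕ => ∏ j, f j (κ j)) ∘ (Fin.consEquiv (fun _ => ℕ)) := by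
      funext p
      change _ = ∏ j, f j ((Fin.cons p.1 p.2 : Fin (m + 1) → ℕ) j)
      rw [Fin.prod_univ_succ]
      simp only [Fin.cons_zero, Fin.cons_succ]
    rw [h3, Equiv.hasSum_iff] at h2
    rw [Fin.prod_univ_succ]
    exact h2

theorem orth_col {m : ℕ} {O : Fin m → Fin m → ℝ} (hO : IsOrth O) (i l : Fin m) :
    ∑ j, O j i * O j l = if i = l then 1 else 0 := by
  let A : Matrix (Fin m) (Fin m) ℝ := Matrix.of O
  have h1 : A * A.transpose = 1 := by
    ext j l
    rw [Matrix.mul_apply, Matrix.one_apply]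
    exact hO j l
  have h2 : A.transpose * A = 1 := mul_eq_one_comm.1 h1
  have h3 := congrFun (congrFun h2 i) l
  rw [Matrix.mul_apply, Matrix.one_apply] at h3
  exact h3

theorem sum_rot_sq {m : ℕ} {O : Fin m → Fin m → ℝ} (hO : IsOrth O) (x : Fin m → ℝ) :
    ∑ j, rot O x j ^ 2 = ∑ i, x i ^ 2 := by
  have h1 : ∀ j, rot O x j ^ 2 = ∑ i, ∑ l, (O j i * O j l) * (x i * x l) := by
    intro j
    rw [rot, sq, Finset.sum_mul_sum]
    refine Finset.sum_congr rfl fun i _ => Finset.sum_congr rfl fun l _ => by ring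
  calc ∑ j, rot O x j ^ 2 = ∑ j, ∑ i, ∑ l, (O j i * O j l) * (x i * x l) :=
        Finset.sum_congr rfl fun j _ => h1 j
    _ = ∑ i, ∑ l, (∑ j, O j i * O j l) * (x i * x l) := by
        rw [Finset.sum_comm]
        refine Finset.sum_congr rfl fun i _ => ?_
        rw [Finset.sum_comm]
        refine Finset.sum_congr rfl fun l _ => ?_
        rw [Finset.sum_mul]
    _ = ∑ i, ∑ l, (if i = l then 1 else 0) * (x i * x l) := by
        refine Finset.sum_congr rfl fun i _ => Finset.sum_congr rfl fun l _ => ?_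
        rw [orth_col hO]
    _ = ∑ i, x i ^ 2 := by
        refine Finset.sum_congr rfl fun i _ => ?_
        simp only [ite_mul, one_mul, zero_mul, Finset.sum_ite_eq, Finset.mem_univ, if_true]
        ring

theorem sum_quad {m : ℕ} (O : Fin m → Fin m → ℝ) (c : Fin m → ℝ) (x y : Fin m → ℝ) :
    ∑ j, c j * (rot O x j - rot O y j) ^ 2 =
      ∑ i, ∑ l, (x i - y i) * QM O c i l * (x l - y l) := by
  have h1 : ∀ j, c j * (rot O x j - rot O y j) ^ 2 =
      ∑ i, ∑ l, (x i - y i) * (O j i * c j * O j l) * (x l - y l) := by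
    intro j
    have h2 : rot O x j - rot O y j = ∑ i, O j i * (x i - y i) := by
      rw [rot, rot, ← Finset.sum_sub_distrib]
      exact Finset.sum_congr rfl fun i _ => by ring
    rw [h2, sq, Finset.sum_mul_sum, Finset.mul_sum]
    refine Finset.sum_congr rfl fun i _ => ?_
    rw [Finset.mul_sum]
    exact Finset.sum_congr rfl fun l _ => by ring
  rw [Finset.sum_congr rfl fun j _ => h1 j, Finset.sum_comm]
  refine Finset.sum_congr rfl fun i _ => ?_
  rw [Finset.sum_comm]
  refine Finset.sum_congr rfl fun l _ => ?_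
  rw [QM, Finset.mul_sum, Finset.sum_mul]

theorem modes2 : S_modes2 := by
  intro m O c ψ hO hc hψ x y
  have h1 := hasSum_pi (fun j k => (1 - rr (c j)) * rr (c j) ^ k *
    (ψ j k (rot O x j) * ψ j k (rot O y j))) _ (fun j => (hψ j).mehler (rot O x j) (rot O y j))
  have h2 : (fun κ : Fin m → ℕ => Lam c κ * (chi O ψ κ x * chi O ψ κ y)) =
      fun κ : Fin m → ℕ => ∏ j, ((1 - rr (c j)) * rr (c j) ^ (κ j) *
        (ψ j (κ j) (rot O x j) * ψ j (κ j) (rot O y j))) := by
    funext κ
    rw [Lam, chi, chi, ← Finset.prod_mul_distrib, ← Finset.prod_mul_distrib]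
  have h3 : ∏ j, kc (c j) (rot O x j) (rot O y j) = KN (QM O c) x y := by
    unfold kc KN
    rw [Finset.prod_mul_distrib, Finset.prod_const, Finset.card_univ, Fintype.card_fin,
      ← Real.exp_sum]
    congr 2
    rw [← sum_quad, Finset.sum_add_distrib, ← sum_rot_sq hO x, ← sum_rot_sq hO y,
      ← Finset.sum_add_distrib, ← Finset.sum_neg_distrib, Finset.sum_div, Finset.sum_div,
      ← Finset.sum_sub_distrib]
  rw [h2, ← h3]
  exact h1

end Pool.Agent.W417.GP
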